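import Pool.Agent.N90.BM.Defs

/-!
# Categories of motives
-/

set_option autoImplicit false
set_option linter.unusedSectionVars false

open CategoryTheory MonoidalCategory

universe w v u

namespace Pool.Agent.N90.BM

variable {K : Type w} [Field K] {C : Type u} [Category.{v} C] [Preadditive C] [Linear K C]
  [MonoidalCategory C]

section Basic

variable {q : ℕ} (𝓜 : Motives K C q)

theorem map_comm {M N : C} (f : M ⟶ N) :
    𝓜.H.map (𝓜.Fr M) ≫ 𝓜.H.map f = 𝓜.H.map f ≫ 𝓜.H.map (𝓜.Fr N) := by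
  rw [← 𝓜.H.map_comp, ← 𝓜.H.map_comp, 𝓜.natural]

variable {𝓜}

theorem Motives.Bij.inj {M N : C} (h : 𝓜.Bij M N) {f f' : M ⟶ N}
    (hf : 𝓜.H.map f = 𝓜.H.map f') : f = f' :=
  (h (𝓜.H.map f') (map_comm 𝓜 f')).unique hf rfl

/-- constructor -/
theorem Motives.Bij.mk' {M N : C} (h1 : ∀ f : M ⟶ N, 𝓜.H.map f = 0 → f = 0)
    (h2 : ∀ g : 𝓜.H.obj M ⟶ 𝓜.H.obj N, 𝓜.H.map (𝓜.Fr M) ≫ g = g ≫ 𝓜.H.map (𝓜.Fr N) →
      ∃ f : M ⟶ N, 𝓜.H.map f = g) : 𝓜.Bij M N := by
  intro g hg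
  obtain ⟨f, hf⟩ := h2 g hg
  refine ⟨f, hf, fun f' hf' => ?_⟩
  rw [← sub_eq_zero]
  apply h1
  change 𝓜.H.map f' = g at hf'
  rw [Functor.map_sub, hf', hf, sub_self]

theorem Motives.Bij.sum_left {A N : C} {ι : Type} [Fintype ι] {B : ι → C} (p : ∀ v, A ⟶ B v)
    (i : ∀ v, B v ⟶ A) (hs : ∑ v, p v ≫ i v = 𝟙 A) (h : ∀ v, 𝓜.Bij (B v) N) : 𝓜.Bij A N := by
  refine Motives.Bij.mk' (fun f hf => ?_) (fun g hg => ?_)
  · have h1 : ∀ v, i v ≫ f = 0 := fun v => by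
      apply (h v).inj
      rw [𝓜.H.map_comp, hf, Limits.comp_zero, Functor.map_zero]
    calc f = (∑ v, p v ≫ i v) ≫ f := by rw [hs, Category.id_comp]
      _ = 0 := by
        rw [Preadditive.sum_comp]
        refine Finset.sum_eq_zero fun v _ => ?_
        rw [Category.assoc, h1, Limits.comp_zero]
  · have h1 : ∀ v, ∃ f : B v ⟶ N, 𝓜.H.map f = 𝓜.H.map (i v) ≫ g := fun v => by
      obtain ⟨f, hf, -⟩ := h v (𝓜.H.map (i v) ≫ g) (by
        rw [← Category.assoc, map_comm, Category.assoc, hg, Category.assoc])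
      exact ⟨f, hf⟩
    choose f hf using h1
    refine ⟨∑ v, p v ≫ f v, ?_⟩
    rw [Functor.map_sum]
    calc ∑ v, 𝓜.H.map (p v ≫ f v) = 𝓜.H.map (∑ v, p v ≫ i v) ≫ g := by
          rw [Functor.map_sum, Preadditive.sum_comp]
          refine Finset.sum_congr rfl fun v _ => ?_
          rw [𝓜.H.map_comp, hf, 𝓜.H.map_comp, Category.assoc]
      _ = g := by rw [hs, 𝓜.H.map_id, Category.id_comp]

theorem Motives.Bij.sum_right {A N : C} {ι : Type} [Fintype ι] {B : ι → C} (p : ∀ v, A ⟶ B v)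
    (i : ∀ v, B v ⟶ A) (hs : ∑ v, p v ≫ i v = 𝟙 A) (h : ∀ v, 𝓜.Bij N (B v)) : 𝓜.Bij N A := by
  refine Motives.Bij.mk' (fun f hf => ?_) (fun g hg => ?_)
  · have h1 : ∀ v, f ≫ p v = 0 := fun v => by
      apply (h v).inj
      rw [𝓜.H.map_comp, hf, Limits.zero_comp, Functor.map_zero]
    calc f = f ≫ (∑ v, p v ≫ i v) := by rw [hs, Category.comp_id]
      _ = 0 := by
        rw [Preadditive.comp_sum]
        refine Finset.sum_eq_zero fun v _ => ?_
        rw [← Category.assoc, h1, Limits.zero_comp]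
  · have h1 : ∀ v, ∃ f : N ⟶ B v, 𝓜.H.map f = g ≫ 𝓜.H.map (p v) := fun v => by
      obtain ⟨f, hf, -⟩ := h v (g ≫ 𝓜.H.map (p v)) (by
        rw [← Category.assoc, hg, Category.assoc, map_comm, Category.assoc])
      exact ⟨f, hf⟩
    choose f hf using h1
    refine ⟨∑ v, f v ≫ i v, ?_⟩
    rw [Functor.map_sum]
    calc ∑ v, 𝓜.H.map (f v ≫ i v) = g ≫ 𝓜.H.map (∑ v, p v ≫ i v) := by
          rw [Functor.map_sum, Preadditive.comp_sum]
          refine Finset.sum_congr rfl fun v _ => ?_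
          rw [𝓜.H.map_comp, hf, 𝓜.H.map_comp, Category.assoc]
      _ = g := by rw [hs, 𝓜.H.map_id, Category.comp_id]

theorem Motives.Bij.retract {M M' N N' : C} (hM : Retract M M') (hN : Retract N N')
    (h : 𝓜.Bij M' N') : 𝓜.Bij M N := by
  refine Motives.Bij.mk' (fun f hf => ?_) (fun g hg => ?_)
  · have h1 : hM.r ≫ f ≫ hN.i = 0 := by
      apply h.inj
      rw [𝓜.H.map_comp, 𝓜.H.map_comp, hf, Limits.zero_comp, Limits.comp_zero, Functor.map_zero]
    calc f = hM.i ≫ (hM.r ≫ f ≫ hN.i) ≫ hN.r := by simp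
      _ = 0 := by rw [h1]; simp
  · obtain ⟨f, hf, -⟩ := h (𝓜.H.map hM.r ≫ g ≫ 𝓜.H.map hN.i) (by
      rw [← Category.assoc, map_comm, Category.assoc, ← Category.assoc (𝓜.H.map (𝓜.Fr M)), hg]
      simp only [Category.assoc]
      rw [map_comm])
    refine ⟨hM.i ≫ f ≫ hN.r, ?_⟩
    rw [𝓜.H.map_comp, 𝓜.H.map_comp, hf]
    simp only [Category.assoc]
    rw [← 𝓜.H.map_comp, hN.retract, ← Category.assoc, ← 𝓜.H.map_comp, hM.retract]
    simp

/-- The smallest class which contains `S` and the sums. -/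
inductive Cov (S : C → Prop) : C → Prop
  | of (A : C) (h : S A) : Cov S A
  | sum (A : C) (ι : Type) [Fintype ι] (B : ι → C) (p : ∀ v, A ⟶ B v) (i : ∀ v, B v ⟶ A)
      (hs : ∑ v, p v ≫ i v = 𝟙 A) (h : ∀ v, Cov S (B v)) : Cov S A

theorem Cov.retract {S : C → Prop} {A B : C} (h : Retract A B) (hB : Cov S B) : Cov S A :=
  Cov.sum A Unit (fun _ => B) (fun _ => h.i) (fun _ => h.r) (by simp) fun _ => hB

theorem Cov.bij {S : C → Prop} (h : ∀ A B, S A → S B → 𝓜.Bij A B) {A B : C} (hA : Cov S A)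
    (hB : Cov S B) : 𝓜.Bij A B := by
  induction hA with
  | of A hA =>
    induction hB with
    | of B hB => exact h A B hA hB
    | sum B ι D p i hs _ ih => exact Motives.Bij.sum_right p i hs ih
  | sum A ι D p i hs _ ih => exact Motives.Bij.sum_left p i hs ih

end Basic

section Tensor

variable [MonoidalPreadditive C]

theorem Cov.tensor {S : C → Prop} (h : ∀ A B, S A → S B → S (A ⊗ B)) {A B : C} (hA : Cov S A)
    (hB : Cov S B) : Cov S (A ⊗ B) := by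
  induction hA with
  | of A hA =>
    induction hB with
    | of B hB => exact Cov.of _ (h A B hA hB)
    | sum B ι D p i hs _ ih =>
      refine Cov.sum _ ι (fun v => A ⊗ D v) (fun v => A ◁ p v) (fun v => A ◁ i v) ?_ ih
      calc ∑ v, A ◁ p v ≫ A ◁ i v = A ◁ (∑ v, p v ≫ i v) := by
            rw [whiskerLeft_sum]
            exact Finset.sum_congr rfl fun v _ => (whiskerLeft_comp A _ _).symm
        _ = 𝟙 (A ⊗ B) := by rw [hs, whiskerLeft_id]
  | sum A ι D p i hs _ ih =>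
    refine Cov.sum _ ι (fun v => D v ⊗ B) (fun v => p v ▷ B) (fun v => i v ▷ B) ?_ ih
    calc ∑ v, p v ▷ B ≫ i v ▷ B = (∑ v, p v ≫ i v) ▷ B := by
          rw [sum_whiskerRight]
          exact Finset.sum_congr rfl fun v _ => (comp_whiskerRight _ _ B).symm
      _ = 𝟙 (A ⊗ B) := by rw [hs, id_whiskerRight]

theorem Cov.tp {S : C → Prop} (h1 : S (𝟙_ C)) (h : ∀ A B, S A → S B → S (A ⊗ B)) {T : C}
    (hT : Cov S T) (n : ℕ) : Cov S (tp T n) := by
  induction n with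
  | zero => exact Cov.of _ h1
  | succ n ih => exact Cov.tensor h ih hT

/-- tensor products of retracts -/
def retractTensor {A A' B B' : C} (hA : Retract A A') (hB : Retract B B') :
    Retract (A ⊗ B) (A' ⊗ B') where
  i := hA.i ⊗ₘ hB.i
  r := hA.r ⊗ₘ hB.r
  retract := by rw [tensorHom_comp_tensorHom, hA.retract, hB.retract, id_tensorHom_id]

theorem zero_of_whiskerRight {A B M' M : C} (g : A ⟶ B) (h : g ▷ M' = 0) (e : M' ⊗ M ≅ 𝟙_ C) :
    g = 0 := by
  have h1 : g ▷ (M' ⊗ M) = 0 := by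
    have h2 : g ▷ (M' ⊗ M) = (α_ A M' M).inv ≫ (g ▷ M') ▷ M ≫ (α_ B M' M).hom := by simp
    rw [h2, h]
    simp
  have h2 : g ▷ 𝟙_ C = 0 := by
    have h3 : g ▷ 𝟙_ C = A ◁ e.inv ≫ g ▷ (M' ⊗ M) ≫ B ◁ e.hom := by
      rw [← whisker_exchange, ← Category.assoc, ← whiskerLeft_comp, e.inv_hom_id]
      simp
    rw [h3, h1]
    simp
  have h3 : g = (ρ_ A).inv ≫ g ▷ 𝟙_ C ≫ (ρ_ B).hom := by simp
  rw [h3, h2]
  simp

end Tensor

end Pool.Agent.N90.BM
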