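import Mathlib.CategoryTheory.Monoidal.Skeleton
import Mathlib.CategoryTheory.Monoidal.Linear
import Mathlib.CategoryTheory.Idempotents.Basic
import Mathlib.CategoryTheory.Retract
import Mathlib.Algebra.Category.ModuleCat.Monoidal.Basic
import Mathlib.LinearAlgebra.Charpoly.Basic
import Mathlib.LinearAlgebra.Basis.Defs
import Pool.Agent.N90.ST.Arith

/-!
# Bijectivity of the cycle maps: definitions
-/

set_option autoImplicit false

open CategoryTheory MonoidalCategory

universe w v u

namespace Pool.Agent.N90.BM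

variable (K : Type w) [Field K] (C : Type u) [Category.{v} C] [Preadditive C] [Linear K C]
  [MonoidalCategory C]

/-- The structures on the category `C` of the Chow motives over the field with `q` elements with
coefficients in `K`: a Weil cohomology `H`, which is a monoidal `K`-linear functor to the vector
spaces over `K`; the Frobenius endomorphisms `Fr M` of the motives, which are natural and compatible
with tensor products; the Lefschetz motive and its inverse. -/
structure Motives (q : ℕ) where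
  /-- the cohomology -/
  H : C ⥤ ModuleCat.{w} K
  additive : H.Additive
  linear : H.Linear K
  monoidal : H.Monoidal
  /-- the Frobenius endomorphisms -/
  Fr : ∀ M : C, M ⟶ M
  natural : ∀ {M N : C} (f : M ⟶ N), Fr M ≫ f = f ≫ Fr N
  Fr_unit : Fr (𝟙_ C) = 𝟙 (𝟙_ C)
  Fr_tensor : ∀ M N : C, Fr (M ⊗ N) = Fr M ⊗ₘ Fr N
  /-- the Lefschetz motive -/
  lef : C
  /-- the inverse of the Lefschetz motive -/
  lefInv : C
  lef_inv : Nonempty (lef ⊗ lefInv ≅ 𝟙_ C)
  finrank_lef : Module.finrank K (H.obj lef) = 1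
  Fr_lef : Fr lef = (q : K) • 𝟙 lef

attribute [instance] Motives.additive Motives.linear Motives.monoidal

variable {K C}

/-- tensor powers -/
def tp (T : C) : ℕ → C
  | 0 => 𝟙_ C
  | n + 1 => tp T n ⊗ T

/-- Every linear map from `H(M)` to `H(N)` which commutes with the Frobenius endomorphisms is
induced by exactly one morphism from `M` to `N`. -/
def Motives.Bij {q : ℕ} (𝓜 : Motives K C q) (M N : C) : Prop :=
  ∀ g : 𝓜.H.obj M ⟶ 𝓜.H.obj N, 𝓜.H.map (𝓜.Fr M) ≫ g = g ≫ 𝓜.H.map (𝓜.Fr N) →
    ∃! f : M ⟶ N, 𝓜.H.map f = g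

/-- All cycle maps for the power `X ^ N` are bijective (for `T = h(X)`): the morphisms from
`T ^ i (-a)` to `T ^ j (-c)` with `i + j = N` are the linear maps of the cohomology which commute
with the Frobenius endomorphisms. -/
def Motives.CycleMapsBij {q : ℕ} (𝓜 : Motives K C q) (T : C) (N : ℕ) : Prop :=
  ∀ i j a c : ℕ, i + j = N → 𝓜.Bij (tp T i ⊗ tp 𝓜.lef a) (tp T j ⊗ tp 𝓜.lef c)

/-- The Frobenius endomorphism of `H(T)` is diagonalisable with the eigenvalues `μ 0`, ..., `μ (b - 1)`
(with multiplicities). -/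
def Motives.Diag {q : ℕ} (𝓜 : Motives K C q) (T : C) {b : ℕ} (μ : Fin b → K) : Prop :=
  ∃ β : Module.Basis (Fin b) K (𝓜.H.obj T), ∀ v, (𝓜.H.map (𝓜.Fr T)).hom (β v) = μ v • β v

/-- If a product of the numbers `μ v` and a power of `q` have the same power with a positive
exponent, then they are equal. -/
def TorsionFree (q : ℕ) {b : ℕ} (μ : Fin b → K) : Prop :=
  ∀ (t : Multiset (Fin b)) (j s : ℕ), 0 < s → (t.map μ).prod ^ s = ((q : K) ^ j) ^ s →
    (t.map μ).prod = (q : K) ^ j

/-- The numbers `μ v` are the roots of the product of the polynomials `P 0`, ..., `P n`. -/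
def Roots {b : ℕ} (μ : Fin b → K) (n : ℕ) (P : ℕ → Polynomial ℤ) : Prop :=
  ∏ v, (Polynomial.X - Polynomial.C (μ v)) =
    ∏ i ∈ Finset.range (n + 1), (P i).map (Int.castRingHom K)

/-- The pairs of an index `i ≤ n` and of the minimal polynomial over `ℚ` of a root of `P i`. -/
def factors (K : Type w) [Field K] [CharZero K] (n : ℕ) (P : ℕ → Polynomial ℤ) :
    Set (ℕ × Polynomial ℚ) :=
  {x | x.1 ≤ n ∧ ∃ ν : K, Polynomial.aeval ν (P x.1) = 0 ∧ x.2 = minpoly ℚ ν}

/-- The explicit exponents: `N ≥ 4` and `N ≥ 2 b ^ 2 (b (n D + 1)) ^ e`, where `e` is a natural number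
with `m b (log b + 5) ≤ e ^ 2` or `2 b ^ 2 (log b + 5) ≤ e ^ 3` (the logarithm to the base `2`
rounded down). -/
def Large (b m n D N : ℕ) : Prop :=
  4 ≤ N ∧ ∃ e, (m * b * (Nat.log 2 b + 5) ≤ e ^ 2 ∨ 2 * b ^ 2 * (Nat.log 2 b + 5) ≤ e ^ 3) ∧
    2 * b ^ 2 * (b * (n * D + 1)) ^ e ≤ N

/-- The motive `M` is a direct summand of a Tate twist of a power of `T`. -/
def Motives.Summand {q : ℕ} (𝓜 : Motives K C q) (T M : C) : Prop :=
  ∃ i a : ℕ, Nonempty (Retract M (tp T i ⊗ tp 𝓜.lef a))

end Pool.Agent.N90.BM
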