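import Pool.Agent.N90.BM.Cat
import Mathlib.LinearAlgebra.Dimension.Constructions
import Mathlib.LinearAlgebra.FiniteDimensional.Basic
import Mathlib.LinearAlgebra.Dimension.Finite

/-!
# Invertible motives
-/

set_option autoImplicit false
set_option linter.unusedSectionVars false

open CategoryTheory MonoidalCategory Module

universe w v u

namespace Pool.Agent.N90.BM

variable {K : Type w} [Field K] {C : Type u} [Category.{v} C] [Preadditive C] [Linear K C]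
  [MonoidalCategory C] {q : ℕ} (𝓜 : Motives K C q)

/-- `H(M)` is a line, and the Frobenius endomorphism of `M` is the scalar `x`. -/
def Motives.Rk (M : C) (x : K) : Prop :=
  finrank K (𝓜.H.obj M) = 1 ∧ 𝓜.Fr M = x • 𝟙 M

variable {𝓜}

theorem end_scalar {V : ModuleCat.{w} K} (h : finrank K V = 1) (g : V ⟶ V) :
    ∃ c : K, g = c • 𝟙 V := by
  obtain ⟨v, hv, hsp⟩ := finrank_eq_one_iff'.1 h
  obtain ⟨c, hc⟩ := hsp (g.hom v)
  refine ⟨c, ?_⟩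
  ext x
  obtain ⟨d, rfl⟩ := hsp x
  change g.hom (d • v) = c • (d • v)
  rw [map_smul, ← hc, smul_comm]

theorem finrank_iso {V W : ModuleCat.{w} K} (e : V ≅ W) : finrank K V = finrank K W :=
  LinearEquiv.finrank_eq e.toLinearEquiv

theorem Motives.Rk.unit : 𝓜.Rk (𝟙_ C) 1 := by
  refine ⟨?_, ?_⟩
  · rw [← finrank_iso (Functor.Monoidal.εIso 𝓜.H)]
    exact finrank_self K
  · rw [𝓜.Fr_unit, one_smul]

theorem Motives.Rk.lef : 𝓜.Rk 𝓜.lef (q : K) := ⟨𝓜.finrank_lef, 𝓜.Fr_lef⟩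

theorem Motives.Rk.iso {M N : C} {x : K} (e : M ≅ N) (h : 𝓜.Rk M x) : 𝓜.Rk N x := by
  refine ⟨?_, ?_⟩
  · rw [← finrank_iso (𝓜.H.mapIso e)]
    exact h.1
  · have h1 : 𝓜.Fr N = e.inv ≫ 𝓜.Fr M ≫ e.hom := by
      rw [𝓜.natural, ← Category.assoc, e.inv_hom_id, Category.id_comp]
    rw [h1, h.2]
    simp

theorem Motives.Rk.tensor [MonoidalPreadditive C] [MonoidalLinear K C] {M N : C} {x y : K}
    (hM : 𝓜.Rk M x) (hN : 𝓜.Rk N y) : 𝓜.Rk (M ⊗ N) (x * y) := by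
  refine ⟨?_, ?_⟩
  · rw [← finrank_iso (Functor.Monoidal.μIso 𝓜.H M N)]
    change finrank K (TensorProduct K (𝓜.H.obj M) (𝓜.H.obj N)) = 1
    rw [finrank_tensorProduct, hM.1, hN.1]
  · rw [𝓜.Fr_tensor, hM.2, hN.2, MonoidalCategory.tensorHom_def]
    simp only [MonoidalLinear.smul_whiskerRight, MonoidalLinear.whiskerLeft_smul,
      id_whiskerRight, whiskerLeft_id, Linear.smul_comp, Linear.comp_smul, Category.comp_id,
      smul_smul]
    rw [mul_comm]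

theorem Motives.Rk.tp [MonoidalPreadditive C] [MonoidalLinear K C] {M : C} {x : K}
    (hM : 𝓜.Rk M x) (n : ℕ) : 𝓜.Rk (tp M n) (x ^ n) := by
  induction n with
  | zero =>
    rw [pow_zero]
    exact Motives.Rk.unit
  | succ n ih =>
    rw [pow_succ]
    exact ih.tensor hM

theorem Motives.Rk.comm {M N : C} {x : K} (hM : 𝓜.Rk M x) (hN : 𝓜.Rk N x)
    (g : 𝓜.H.obj M ⟶ 𝓜.H.obj N) : 𝓜.H.map (𝓜.Fr M) ≫ g = g ≫ 𝓜.H.map (𝓜.Fr N) := by
  rw [hM.2, hN.2, Functor.map_smul, Functor.map_smul]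
  simp

theorem Motives.Rk.bij_of_ne {M N : C} {x y : K} (hxy : x ≠ y) (hM : 𝓜.Rk M x)
    (hN : 𝓜.Rk N y) : 𝓜.Bij M N := by
  refine Motives.Bij.mk' (fun f _ => ?_) (fun g hg => ?_)
  · have h1 := 𝓜.natural f
    rw [hM.2, hN.2, Linear.smul_comp, Linear.comp_smul, Category.id_comp, Category.comp_id,
      ← sub_eq_zero, ← sub_smul] at h1
    exact (smul_eq_zero.1 h1).resolve_left (sub_ne_zero.2 hxy)
  · rw [hM.2, hN.2, Functor.map_smul, Functor.map_smul, CategoryTheory.Functor.map_id, CategoryTheory.Functor.map_id,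
      Linear.smul_comp, Linear.comp_smul, Category.id_comp, Category.comp_id,
      ← sub_eq_zero, ← sub_smul] at hg
    refine ⟨0, ?_⟩
    rw [(smul_eq_zero.1 hg).resolve_left (sub_ne_zero.2 hxy), Functor.map_zero]

theorem Motives.Rk.id_ne_zero {M : C} {x : K} (hM : 𝓜.Rk M x) : 𝟙 (𝓜.H.obj M) ≠ 0 := by
  intro h0
  obtain ⟨v, hv, -⟩ := finrank_eq_one_iff'.1 hM.1
  apply hv
  have h1 : (𝟙 (𝓜.H.obj M) : 𝓜.H.obj M ⟶ 𝓜.H.obj M).hom v = (0 : 𝓜.H.obj M ⟶ 𝓜.H.obj M).hom v := by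
    rw [h0]
  exact h1

theorem Motives.Rk.bij_self [MonoidalPreadditive C] [MonoidalLinear K C]
    (h1 : 𝓜.Bij (𝟙_ C) (𝟙_ C)) {M M' : C} {x : K}
    (hM : 𝓜.Rk M x) (e : M ⊗ M' ≅ 𝟙_ C) (e' : M' ⊗ M ≅ 𝟙_ C) : 𝓜.Bij M M := by
  have key : ∀ f : M ⟶ M, ∃ c : K, f = c • 𝟙 M := by
    intro f
    obtain ⟨c, hc⟩ := end_scalar (Motives.Rk.unit (𝓜 := 𝓜)).1
      (𝓜.H.map (e.inv ≫ f ▷ M' ≫ e.hom))
    have h2 : e.inv ≫ f ▷ M' ≫ e.hom = c • 𝟙 (𝟙_ C) := by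
      apply h1.inj
      rw [hc, Functor.map_smul, CategoryTheory.Functor.map_id]
    have h3 : f ▷ M' = c • 𝟙 (M ⊗ M') := by
      calc f ▷ M' = e.hom ≫ (e.inv ≫ f ▷ M' ≫ e.hom) ≫ e.inv := by simp
        _ = c • 𝟙 (M ⊗ M') := by rw [h2]; simp
    refine ⟨c, ?_⟩
    rw [← sub_eq_zero]
    refine zero_of_whiskerRight (M' := M') _ ?_ e'
    have h4 : (f - c • 𝟙 M) ▷ M' = f ▷ M' - c • 𝟙 (M ⊗ M') := by
      have h5 : (f - c • 𝟙 M) ▷ M' = f ▷ M' - (c • 𝟙 M) ▷ M' :=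
        Functor.map_sub (tensorRight M') (f := f) (g := c • 𝟙 M)
      rw [h5, MonoidalLinear.smul_whiskerRight, id_whiskerRight]
    rw [h4, h3, sub_self]
  refine Motives.Bij.mk' (fun f hf => ?_) (fun g _ => ?_)
  · obtain ⟨c, rfl⟩ := key f
    rw [Functor.map_smul, CategoryTheory.Functor.map_id] at hf
    rw [(smul_eq_zero.1 hf).resolve_right hM.id_ne_zero, zero_smul]
  · obtain ⟨c, rfl⟩ := end_scalar hM.1 g
    exact ⟨c • 𝟙 M, by rw [Functor.map_smul, CategoryTheory.Functor.map_id]⟩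

theorem Motives.Rk.nonempty_iso {M N : C} {x : K} (hM : 𝓜.Rk M x) (hN : 𝓜.Rk N x)
    (h1 : 𝓜.Bij M M) (h2 : 𝓜.Bij N N) (h3 : 𝓜.Bij M N) (h4 : 𝓜.Bij N M) :
    Nonempty (M ≅ N) := by
  have hf1 : FiniteDimensional K (𝓜.H.obj M) :=
    FiniteDimensional.of_finrank_pos (by rw [hM.1]; exact Nat.one_pos)
  have hf2 : FiniteDimensional K (𝓜.H.obj N) :=
    FiniteDimensional.of_finrank_pos (by rw [hN.1]; exact Nat.one_pos)
  have e : 𝓜.H.obj M ≃ₗ[K] 𝓜.H.obj N := LinearEquiv.ofFinrankEq _ _ (hM.1.trans hN.1.symm)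
  have e' : 𝓜.H.obj M ≅ 𝓜.H.obj N := e.toModuleIso
  obtain ⟨a, ha, -⟩ := h3 e'.hom (hM.comm hN _)
  obtain ⟨b, hb, -⟩ := h4 e'.inv (hN.comm hM _)
  refine ⟨⟨a, b, ?_, ?_⟩⟩
  · apply h1.inj
    rw [𝓜.H.map_comp, ha, hb, 𝓜.H.map_id, e'.hom_inv_id]
  · apply h2.inj
    rw [𝓜.H.map_comp, ha, hb, 𝓜.H.map_id, e'.inv_hom_id]

/-- **Decomposition.** -/
theorem exists_split [IsIdempotentComplete C] {T : C} (hT : 𝓜.Bij T T) {ι : Type} [Fintype ι]
    (β : Basis ι K (𝓜.H.obj T)) (μ : ι → K)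
    (hμ : ∀ v, (𝓜.H.map (𝓜.Fr T)).hom (β v) = μ v • β v) :
    ∃ (B : ι → C) (p : ∀ v, T ⟶ B v) (i : ∀ v, B v ⟶ T), (∀ v, i v ≫ p v = 𝟙 (B v)) ∧
      ∑ v, p v ≫ i v = 𝟙 T ∧ ∀ v, 𝓜.Rk (B v) (μ v) := by
  classical
  have hrep : ∀ x v, β.repr ((𝓜.H.map (𝓜.Fr T)).hom x) v = μ v * β.repr x v := by
    intro x v
    have h1 : (Finsupp.lapply v ∘ₗ β.repr.toLinearMap) ∘ₗ (𝓜.H.map (𝓜.Fr T)).hom =
        μ v • (Finsupp.lapply v ∘ₗ β.repr.toLinearMap) := by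
      apply β.ext
      intro v'
      simp only [LinearMap.comp_apply, LinearMap.smul_apply, LinearEquiv.coe_coe, hμ, map_smul,
        Finsupp.lapply_apply, Basis.repr_self, Finsupp.smul_single, smul_eq_mul]
      by_cases h : v' = v
      · subst h; rfl
      · simp [Finsupp.single_apply, h]
    exact LinearMap.congr_fun h1 x
  let E : ι → (𝓜.H.obj T ⟶ 𝓜.H.obj T) := fun v =>
    ModuleCat.ofHom (LinearMap.toSpanSingleton K _ (β v) ∘ₗ
      (Finsupp.lapply v ∘ₗ β.repr.toLinearMap))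
  have hE : ∀ v x, (E v).hom x = β.repr x v • β v := fun v x => rfl
  have hcomm : ∀ v, 𝓜.H.map (𝓜.Fr T) ≫ E v = E v ≫ 𝓜.H.map (𝓜.Fr T) := by
    intro v
    ext x
    change (E v).hom ((𝓜.H.map (𝓜.Fr T)).hom x) = (𝓜.H.map (𝓜.Fr T)).hom ((E v).hom x)
    rw [hE, hE, hrep, map_smul, hμ, smul_smul, mul_comm]
  have hex : ∀ v, ∃ e : T ⟶ T, 𝓜.H.map e = E v := fun v => (hT (E v) (hcomm v)).exists
  choose e he using hex
  have hidem : ∀ v, e v ≫ e v = e v := by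
    intro v
    apply hT.inj
    rw [𝓜.H.map_comp, he]
    ext x
    change (E v).hom ((E v).hom x) = (E v).hom x
    rw [hE, hE, map_smul, Basis.repr_self]
    simp
  have hsum : ∑ v, e v = 𝟙 T := by
    apply hT.inj
    rw [Functor.map_sum, 𝓜.H.map_id]
    simp only [he]
    ext x
    have h1 : (∑ v, E v).hom x = ∑ v, (E v).hom x := by
      rw [ModuleCat.hom_sum, LinearMap.sum_apply]
    change (∑ v, E v).hom x = x
    rw [h1]
    simp only [hE]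
    exact β.sum_repr x
  have hsp : ∀ v, ∃ (B : C) (i : B ⟶ T) (p : T ⟶ B), i ≫ p = 𝟙 B ∧ p ≫ i = e v := fun v =>
    IsIdempotentComplete.idempotents_split T (e v) (hidem v)
  choose B i p hip hpi using hsp
  refine ⟨B, p, i, hip, ?_, fun v => ?_⟩
  · simp only [hpi]
    exact hsum
  · have hHpi : ∀ x, (𝓜.H.map (i v)).hom ((𝓜.H.map (p v)).hom x) = β.repr x v • β v := by
      intro x
      have h1 : 𝓜.H.map (p v) ≫ 𝓜.H.map (i v) = E v := by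
        rw [← 𝓜.H.map_comp, hpi, he]
      have h2 : (𝓜.H.map (p v) ≫ 𝓜.H.map (i v)).hom x = (E v).hom x := by rw [h1]
      exact h2
    have hHip : ∀ x, (𝓜.H.map (p v)).hom ((𝓜.H.map (i v)).hom x) = x := by
      intro x
      have h1 : 𝓜.H.map (i v) ≫ 𝓜.H.map (p v) = 𝟙 _ := by
        rw [← 𝓜.H.map_comp, hip, 𝓜.H.map_id]
      have h2 : (𝓜.H.map (i v) ≫ 𝓜.H.map (p v)).hom x = (𝟙 (𝓜.H.obj (B v)) :
        𝓜.H.obj (B v) ⟶ 𝓜.H.obj (B v)).hom x := by rw [h1]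
      exact h2
    set y : 𝓜.H.obj (B v) := (𝓜.H.map (p v)).hom (β v) with hy
    have hspan : ∀ x : 𝓜.H.obj (B v), ∃ c : K, c • y = x := by
      intro x
      refine ⟨β.repr ((𝓜.H.map (i v)).hom x) v, ?_⟩
      rw [hy, ← map_smul, ← hHpi, hHip, hHip]
    have hy0 : y ≠ 0 := by
      intro h0
      have h1 := hHpi (β v)
      rw [← hy, h0, map_zero, Basis.repr_self, Finsupp.single_eq_same, one_smul] at h1
      exact β.ne_zero v h1.symm
    have hone : finrank K (𝓜.H.obj (B v)) = 1 := finrank_eq_one y hy0 hspan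
    refine ⟨hone, ?_⟩
    have hB : 𝓜.Bij (B v) (B v) := Motives.Bij.retract ⟨i v, p v, hip v⟩ ⟨i v, p v, hip v⟩ hT
    apply hB.inj
    rw [Functor.map_smul, CategoryTheory.Functor.map_id]
    ext x
    obtain ⟨c, rfl⟩ := hspan x
    change (𝓜.H.map (𝓜.Fr (B v))).hom (c • y) = μ v • (c • y)
    rw [map_smul, smul_comm]
    congr 1
    have h1 : (𝓜.H.map (𝓜.Fr T) ≫ 𝓜.H.map (p v)).hom (β v) =
        (𝓜.H.map (p v) ≫ 𝓜.H.map (𝓜.Fr (B v))).hom (β v) := by rw [map_comm]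
    have h2 : (𝓜.H.map (p v)).hom ((𝓜.H.map (𝓜.Fr T)).hom (β v)) =
        (𝓜.H.map (𝓜.Fr (B v))).hom y := h1
    rw [← h2, hμ, map_smul]

end Pool.Agent.N90.BM
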