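import Pool.Agent.N90.BM.Words

/-!
# One power decides the bijectivity of the cycle maps
-/

set_option autoImplicit false
set_option linter.unusedSectionVars false

open CategoryTheory MonoidalCategory Module Polynomial Pool.Agent.N90.ST

universe w v u

namespace Pool.Agent.N90.BM

section Arith

variable {K : Type w} [Field K] [CharZero K] {L : Type} [Field L] [NumberField L] {n : ℕ}
  {P : ℕ → ℤ[X]} {p r D : ℕ} [Fact p.Prime]

/-- the dual root -/
theorem dual_root (hP : WeilPolys p r D P) (y : Lam L n P) :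
    ∃ y' : Lam L n P, y'.dg = y.dg ∧ y'.vl * y.vl = ((p : L) ^ r) ^ y.dg := by
  have h0 := vl_ne_zero hP y
  have h1 : aeval (((p : L) ^ r) ^ y.dg / y.vl) (P y.dg) = 0 := by
    obtain ⟨φ⟩ : Nonempty (L →+* ℂ) := inferInstance
    apply φ.injective
    rw [← aeval_hom, map_zero, map_div₀, map_pow, map_pow, map_natCast]
    have h2 := hP.weil y.dg (φ y.vl) (by rw [aeval_hom, y.root, map_zero])
    have h3 : (((p : ℂ) ^ r) ^ y.dg) / φ y.vl = (starRingEnd ℂ) (φ y.vl) := by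
      rw [div_eq_iff ((map_ne_zero φ).2 h0), mul_comm, Complex.mul_conj,
        Complex.normSq_eq_norm_sq, h2]
      push_cast
      rfl
    rw [h3]
    change aeval ((starRingEnd ℂ) (φ y.vl)) (P y.dg) = 0
    rw [aeval_hom (starRingEnd ℂ), aeval_hom, y.root, map_zero, map_zero]
  refine ⟨Lam.mk _ y.dg y.dg_le h1, rfl, ?_⟩
  change ((p : L) ^ r) ^ y.dg / y.vl * y.vl = _
  rw [div_mul_cancel₀ _ h0]

/-- weights -/
theorem weight_eq (hr : 0 < r) (hP : WeilPolys p r D P) {t : Multiset (Lam L n P)} {a c : ℕ}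
    (h : prodL t * ((p : L) ^ r) ^ a = ((p : L) ^ r) ^ c) :
    (t.map Lam.dg).sum + 2 * a = 2 * c := by
  obtain ⟨φ⟩ : Nonempty (L →+* ℂ) := inferInstance
  have h1 := norm_prod_complex hP φ t
  have h2 := congrArg (fun x => ‖φ x‖ ^ 2) h
  simp only [map_mul, map_pow, map_natCast, norm_mul, norm_pow, Complex.norm_natCast] at h2
  rw [mul_pow, h1, ← pow_mul _ a 2, ← pow_mul _ c 2, ← pow_add] at h2
  have hp : (1 : ℝ) < p := by exact_mod_cast (Fact.out : p.Prime).one_lt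
  have h3 : (1 : ℝ) < (p : ℝ) ^ r := one_lt_pow₀ hp hr.ne'
  have h4 := pow_right_injective₀ (zero_lt_one.trans h3) h3.ne' h2
  omega

variable {b : ℕ} {μ : Fin b → K}

theorem roots_index (hμ : Roots μ n P) (ψ : L →+* K) (y : Lam L n P) :
    ∃ v, μ v = ψ y.vl := by
  have h1 : eval (ψ y.vl) (∏ v, (X - C (μ v))) = 0 := by
    rw [hμ, eval_prod]
    refine Finset.prod_eq_zero (Finset.mem_range.2 (Nat.lt_succ_of_le y.dg_le)) ?_
    have h2 : aeval (ψ y.vl) (P y.dg) = 0 := by rw [aeval_hom, y.root, map_zero]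
    rw [Polynomial.eval_map]
    exact h2
  rw [eval_prod, Finset.prod_eq_zero_iff] at h1
  obtain ⟨v, -, hv⟩ := h1
  rw [eval_sub, eval_X, eval_C, sub_eq_zero] at hv
  exact ⟨v, hv.symm⟩

theorem lift_root (hP : ∀ i, (P i).Monic) (hL : ∀ i ≤ n, ((P i).map (Int.castRingHom L)).Splits)
    (ψ : L →+* K) {i : ℕ} (hi : i ≤ n) {ν : K} (h3 : aeval ν (P i) = 0) :
    ∃ y : Lam L n P, y.dg = i ∧ ψ y.vl = ν := by
  have h5 : ((P i).map (Int.castRingHom L)).Splits := hL i hi
  have h6 : ν ∈ (((P i).map (Int.castRingHom L)).map ψ).roots := by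
    rw [Polynomial.map_map]
    have h7 : ψ.comp (Int.castRingHom L) = Int.castRingHom K := RingHom.ext_int _ _
    rw [h7, mem_roots ((hP i).map _).ne_zero, IsRoot.def,
      Polynomial.eval_map]
    exact h3
  rw [h5.roots_map, Multiset.mem_map] at h6
  obtain ⟨β, -, rfl⟩ := h6
  rw [aeval_hom, map_eq_zero] at h3
  exact ⟨Lam.mk β i hi h3, rfl, rfl⟩

theorem index_root (hP : ∀ i, (P i).Monic) (hL : ∀ i ≤ n, ((P i).map (Int.castRingHom L)).Splits)
    (hμ : Roots μ n P) (ψ : L →+* K) (v : Fin b) : ∃ y : Lam L n P, ψ y.vl = μ v := by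
  have h1 : eval (μ v) (∏ v, (X - C (μ v))) = 0 := by
    rw [eval_prod]
    refine Finset.prod_eq_zero (Finset.mem_univ v) ?_
    rw [eval_sub, eval_X, eval_C, sub_self]
  rw [hμ, eval_prod, Finset.prod_eq_zero_iff] at h1
  obtain ⟨i, hi, h2⟩ := h1
  rw [Polynomial.eval_map] at h2
  obtain ⟨y, -, hy⟩ := lift_root hP hL ψ (Nat.le_of_lt_succ (Finset.mem_range.1 hi)) (ν := μ v) h2
  exact ⟨y, hy⟩

theorem natDegree_sum (hP : ∀ i, (P i).Monic) (hμ : Roots μ n P) :
    ∑ i ∈ Finset.range (n + 1), (P i).natDegree = b := by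
  have h1 := congrArg natDegree hμ
  rw [natDegree_prod_of_monic _ _ fun v _ => monic_X_sub_C _,
    natDegree_prod_of_monic _ _ fun i _ => (hP i).map _] at h1
  simp only [natDegree_X_sub_C, Finset.sum_const, Finset.card_univ, Fintype.card_fin, smul_eq_mul,
    mul_one] at h1
  rw [h1]
  exact Finset.sum_congr rfl fun i _ => ((hP i).natDegree_map _).symm

end Arith

variable {K : Type w} [Field K] [CharZero K] {C : Type u} [Category.{v} C] [Preadditive C]
  [Linear K C] [MonoidalCategory C] [MonoidalPreadditive C] [MonoidalLinear K C]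
  [BraidedCategory C]

/-- lower powers are retracts -/
theorem retract_tp {T : C} (hT : Nonempty (Retract (𝟙_ C) T)) {i j : ℕ} (h : i ≤ j) :
    Nonempty (Retract (tp T i) (tp T j)) := by
  induction j, h using Nat.le_induction with
  | base => exact ⟨Retract.refl _⟩
  | succ j _ ih =>
    obtain ⟨R⟩ := hT
    obtain ⟨S⟩ := ih
    exact ⟨(Retract.ofIso (ρ_ (tp T i)).symm).trans (retractTensor S R)⟩

/-- **The setup.** -/
theorem exists_hyp [IsAlgClosed K] [IsIdempotentComplete C] {p r : ℕ} [Fact p.Prime] (hr : 0 < r)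
    {𝓜 : Motives K C (p ^ r)} {T : C} (hT : Nonempty (Retract (𝟙_ C) T)) {b n D : ℕ}
    (hD : 0 < D) {μ : Fin b → K} (hdiag : 𝓜.Diag T μ) {P : ℕ → ℤ[X]} (hP : WeilPolys p r D P)
    (hμ : Roots μ n P) (htor : TorsionFree (p ^ r) μ) {m N : ℕ} (hm : (factors K n P).ncard ≤ m)
    (hN : Large b m n D N) (hcyc : 𝓜.CycleMapsBij T N) :
    ∃ (Λ : Type) (B : Λ → C) (val : Λ → K) (dg : Λ → ℕ) (bar : Λ → Λ),
      Hyp 𝓜 T N B val dg bar := by
  classical
  obtain ⟨h4, e, he, hN⟩ := hN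
  have hmon := hP.monic
  have cyc : ∀ i j a c : ℕ, i + j ≤ N → 𝓜.Bij (tp T i ⊗ tp 𝓜.lef a) (tp T j ⊗ tp 𝓜.lef c) := by
    intro i j a c hij
    obtain ⟨R⟩ := retract_tp hT (show j ≤ N - i by omega)
    exact Motives.Bij.retract (Retract.refl _) (retractTensor R (Retract.refl _))
      (hcyc i (N - i) a c (by omega))
  have hTT : 𝓜.Bij T T := by
    have R : Retract T (tp T 1) := Retract.ofIso (λ_ T).symm
    exact Motives.Bij.retract (retLeft R 𝓜.lef) (retLeft R 𝓜.lef) (cyc 1 1 0 0 (by omega))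
  obtain ⟨L, _, _, _, hL⟩ := exists_field n hmon
  obtain ⟨ψ⟩ : Nonempty (L →+* K) := ⟨(IsAlgClosed.lift : L →ₐ[ℚ] K).toRingHom⟩
  obtain ⟨β, hβ⟩ := hdiag
  obtain ⟨Bs, pr, inc, hip, hsum, hrk⟩ := exists_split hTT β μ hβ
  have hret : ∀ v, Retract (Bs v) T := fun v => ⟨inc v, pr v, hip v⟩
  choose idx hidx using roots_index (L := L) hμ ψ
  choose bar hbar1 hbar2 using dual_root (L := L) (n := n) hP
  have hval : ∀ t : Multiset (Lam L n P), (t.map fun y => ψ y.vl).prod = ψ (prodL t) := by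
    intro t
    rw [prodL, map_multiset_prod, Multiset.map_map]
    rfl
  have hq : ((p ^ r : ℕ) : K) = ψ ((p : L) ^ r) := by
    rw [map_pow, map_natCast, Nat.cast_pow]
  refine ⟨Lam L n P, fun y => Bs (idx y), fun y => ψ y.vl, Lam.dg, bar, cyc, h4, fun y => ?_,
    fun y => ⟨hret _⟩, ?_, fun y => ?_, ?_, ?_, ?_⟩
  · change 𝓜.Rk (Bs (idx y)) (ψ y.vl)
    rw [← hidx]
    exact hrk _
  · refine Cov.sum T (Fin b) Bs pr inc hsum fun v => Cov.of _ ?_
    obtain ⟨y, hy⟩ := index_root hmon hL hμ ψ v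
    refine ⟨y, ?_⟩
    rw [toSkeleton_eq_toSkeleton_iff]
    have h1 : 𝓜.Rk (Bs (idx y)) (μ v) := by
      rw [← hy, ← hidx]
      exact hrk _
    exact (hrk v).nonempty_iso h1 (Motives.Bij.retract (hret _) (hret _) hTT)
      (Motives.Bij.retract (hret _) (hret _) hTT) (Motives.Bij.retract (hret _) (hret _) hTT)
      (Motives.Bij.retract (hret _) (hret _) hTT)
  · refine ⟨y.dg, by rw [hbar1]; omega, ?_⟩
    rw [← map_mul, hbar2, map_pow, hq]
  · rintro t ⟨j, hj1, hj2⟩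
    have h1 : prodL t ^ 1 = (((p : L) ^ r) ^ j) ^ 1 := by
      rw [pow_one, pow_one]
      apply ψ.injective
      rw [← hval, hj2, hq, map_pow ψ _ j]
    obtain ⟨Q, hQ⟩ := tate_pairs hP hr hD (k := m) (e := e) (N := N) (b := b)
      (natDegree_sum hmon hμ).le (by
        refine le_trans (Set.ncard_le_ncard ?_ ?_) hm
        · rintro x ⟨y, rfl⟩
          exact ⟨y.dg_le, ψ y.vl, by rw [aeval_hom, y.root, map_zero],
            (minpoly.algHom_eq ψ.toRatAlgHom ψ.injective y.vl).symm⟩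
        · have hmon' : Fact (∀ i, (P i).Monic) := ⟨hmon⟩
          refine Set.Finite.subset (Set.finite_range
            fun y : Lam L n P => (y.dg, minpoly ℚ y.vl)) ?_
          rintro ⟨i, g⟩ ⟨h1, ν, h2, h3⟩
          obtain ⟨y, hy1, hy2⟩ := lift_root hmon hL ψ h1 h2
          refine ⟨y, Prod.ext hy1 ?_⟩
          change minpoly ℚ y.vl = g
          change g = minpoly ℚ ν at h3
          rw [h3, ← hy2]
          exact (minpoly.algHom_eq ψ.toRatAlgHom ψ.injective y.vl).symm) he hN bar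
      (fun y => ⟨y.dg, by rw [hbar1]; omega, by rw [hbar2, ← pow_mul]⟩) Nat.one_pos hj1 h1
    refine ⟨Q, AddSubmonoid.closure_mono ?_ hQ⟩
    rintro u ⟨⟨j, s, hs, hu1, hu2⟩, hu3⟩
    refine ⟨⟨j, hu1, ?_⟩, hu3⟩
    have h2 : (u.map fun y => ψ y.vl) = (u.map idx).map μ := by
      rw [Multiset.map_map]
      exact Multiset.map_congr rfl fun y _ => (hidx y).symm
    have h3 := htor (u.map idx) j s hs (by
      rw [← h2, hval, ← map_pow, hu2, hq, map_pow, map_pow])
    rw [← h2] at h3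
    exact h3
  · intro t a c h
    refine weight_eq hr hP (L := L) ?_
    apply ψ.injective
    rw [map_mul, ← hval, map_pow ψ _ a, map_pow ψ _ c, ← hq]
    exact h
  · rw [Nat.cast_pow]
    exact pow_ne_zero _ (Nat.cast_ne_zero.2 (Fact.out : p.Prime).ne_zero)

/-- **One power decides the bijectivity of all cycle maps.** -/
theorem all_bij [IsAlgClosed K] [IsIdempotentComplete C] {p r : ℕ} [Fact p.Prime] (hr : 0 < r)
    {𝓜 : Motives K C (p ^ r)} {T : C} (hT : Nonempty (Retract (𝟙_ C) T)) {b n D : ℕ}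
    (hD : 0 < D) {μ : Fin b → K} (hdiag : 𝓜.Diag T μ) {P : ℕ → ℤ[X]} (hP : WeilPolys p r D P)
    (hμ : Roots μ n P) (htor : TorsionFree (p ^ r) μ) {m N : ℕ} (hm : (factors K n P).ncard ≤ m)
    (hN : Large b m n D N) (hcyc : 𝓜.CycleMapsBij T N) {M M' : C} (hM : 𝓜.Summand T M)
    (hM' : 𝓜.Summand T M') : 𝓜.Bij M M' := by
  obtain ⟨Λ, B, val, dg, bar, H⟩ := exists_hyp hr hT hD hdiag hP hμ htor hm hN hcyc
  exact H.main hM hM'

end Pool.Agent.N90.BM
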