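import Pool.Agent.N90.BM.Line

/-!
# Words of invertible motives
-/

set_option autoImplicit false
set_option linter.unusedSectionVars false

open CategoryTheory MonoidalCategory Module

universe w v u

namespace Pool.Agent.N90.BM

variable {K : Type w} [Field K] {C : Type u} [Category.{v} C] [Preadditive C] [Linear K C]
  [MonoidalCategory C] [MonoidalPreadditive C] [MonoidalLinear K C] [BraidedCategory C]
  {q : ℕ} {𝓜 : Motives K C q}

theorem toSkeleton_tp (M : C) (n : ℕ) : toSkeleton (tp M n) = toSkeleton M ^ n := by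
  induction n with
  | zero => rfl
  | succ n ih => rw [pow_succ, ← ih, ← Skeleton.toSkeleton_tensorObj]; rfl

/-- the unit is a retract -/
theorem lef_unit : IsUnit (toSkeleton 𝓜.lef) := by
  obtain ⟨e⟩ := 𝓜.lef_inv
  refine IsUnit.of_mul_eq_one (toSkeleton 𝓜.lefInv) ?_
  rw [← Skeleton.toSkeleton_tensorObj, Skeleton.one_eq, toSkeleton_eq_toSkeleton_iff]
  exact ⟨e⟩

theorem bij_of_isUnit (h1 : 𝓜.Bij (𝟙_ C) (𝟙_ C)) {M : C} {x : K} (hM : 𝓜.Rk M x)
    (hu : IsUnit (toSkeleton M)) : 𝓜.Bij M M := by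
  obtain ⟨b, hb⟩ := hu.exists_right_inv
  have hb' : b = toSkeleton ((fromSkeleton C).obj b) := (toSkeleton_fromSkeleton_obj b).symm
  generalize (fromSkeleton C).obj b = M' at hb'
  subst hb'
  have h2 : Nonempty (M ⊗ M' ≅ 𝟙_ C) := by
    rw [← toSkeleton_eq_toSkeleton_iff, Skeleton.toSkeleton_tensorObj, hb, Skeleton.one_eq]
  have h3 : Nonempty (M' ⊗ M ≅ 𝟙_ C) := by
    rw [← toSkeleton_eq_toSkeleton_iff, Skeleton.toSkeleton_tensorObj, mul_comm, hb,
      Skeleton.one_eq]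
  obtain ⟨e⟩ := h2
  obtain ⟨e'⟩ := h3
  exact hM.bij_self h1 e e'

variable {Λ : Type} {B : Λ → C} {val : Λ → K} {dg : Λ → ℕ} {T : C} {N : ℕ}

/-- the class of a word -/
noncomputable def cl (B : Λ → C) (t : Multiset Λ) : Skeleton C :=
  (t.map fun y => toSkeleton (B y)).prod

theorem cl_add (t u : Multiset Λ) : cl B (t + u) = cl B t * cl B u := by
  rw [cl, Multiset.map_add, Multiset.prod_add]
  rfl

theorem cl_cons (y : Λ) (t : Multiset Λ) : cl B (y ::ₘ t) = toSkeleton (B y) * cl B t := by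
  rw [cl, Multiset.map_cons, Multiset.prod_cons]
  rfl

theorem exists_word (hB : ∀ y, 𝓜.Rk (B y) (val y)) (hr : ∀ y, Nonempty (Retract (B y) T))
    (t : Multiset Λ) : ∃ M : C, toSkeleton M = cl B t ∧ 𝓜.Rk M (t.map val).prod ∧
      Nonempty (Retract M (tp T t.card)) := by
  induction t using Multiset.induction with
  | empty => exact ⟨𝟙_ C, rfl, Motives.Rk.unit, ⟨Retract.refl _⟩⟩
  | cons y t ih =>
    obtain ⟨M, h1, h2, ⟨h3⟩⟩ := ih
    obtain ⟨h4⟩ := hr y
    refine ⟨M ⊗ B y, ?_, ?_, ?_⟩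
    · rw [Skeleton.toSkeleton_tensorObj, h1, cl_cons, mul_comm]
    · rw [Multiset.map_cons, Multiset.prod_cons, mul_comm]
      exact h2.tensor (hB y)
    · rw [Multiset.card_cons]
      exact ⟨retractTensor h3 h4⟩

/-- a Tate word -/
def Tt (q : ℕ) (val : Λ → K) (dg : Λ → ℕ) (t : Multiset Λ) : Prop :=
  ∃ j, (t.map dg).sum = 2 * j ∧ (t.map val).prod = (q : K) ^ j

/-- the hypotheses -/
structure Hyp (𝓜 : Motives K C q) (T : C) (N : ℕ) (B : Λ → C) (val : Λ → K) (dg : Λ → ℕ)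
    (bar : Λ → Λ) : Prop where
  cyc : ∀ i j a c : ℕ, i + j ≤ N → 𝓜.Bij (tp T i ⊗ tp 𝓜.lef a) (tp T j ⊗ tp 𝓜.lef c)
  four : 4 ≤ N
  rk : ∀ y, 𝓜.Rk (B y) (val y)
  ret : ∀ y, Nonempty (Retract (B y) T)
  cov : Cov (fun M => ∃ y, toSkeleton M = toSkeleton (B y)) T
  pair : ∀ y, ∃ h, 2 * h = dg y + dg (bar y) ∧ val (bar y) * val y = (q : K) ^ h
  gen : ∀ t, Tt q val dg t → ∃ Q : Multiset Λ, t + Q + Q.map bar ∈
    AddSubmonoid.closure {u | Tt q val dg u ∧ u.card ≤ N}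
  wt : ∀ (t : Multiset Λ) (a c : ℕ), (t.map val).prod * (q : K) ^ a = (q : K) ^ c →
    (t.map dg).sum + 2 * a = 2 * c
  q_ne : (q : K) ≠ 0

variable {bar : Λ → Λ} (H : Hyp 𝓜 T N B val dg bar)

/-- retract of the lef part -/
def retLeft {M : C} {i : ℕ} (h : Retract M (tp T i)) (L : C) : Retract M (tp T i ⊗ tp L 0) :=
  h.trans (Retract.ofIso (ρ_ (tp T i)).symm)

/-- retract of the lef part -/
def retRight (L : C) (a : ℕ) : Retract (tp L a) (tp T 0 ⊗ tp L a) :=
  Retract.ofIso (λ_ (tp L a)).symm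

include H

theorem Hyp.one : 𝓜.Bij (𝟙_ C) (𝟙_ C) :=
  Motives.Bij.retract (retLeft (T := T) (i := 0) (Retract.refl _) 𝓜.lef)
    (retLeft (T := T) (i := 0) (Retract.refl _) 𝓜.lef) (H.cyc 0 0 0 0 (Nat.zero_le _))

theorem Hyp.small {t : Multiset Λ} (ht : t.card ≤ N) {j : ℕ}
    (hj : (t.map val).prod = (q : K) ^ j) (hself : ∀ M, toSkeleton M = cl B t →
      Nonempty (Retract M (tp T t.card)) → 𝓜.Rk M (t.map val).prod → 𝓜.Bij M M) :
    cl B t = toSkeleton 𝓜.lef ^ j := by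
  obtain ⟨M, h1, h2, ⟨h3⟩⟩ := exists_word H.rk H.ret t
  have h4 : 𝓜.Rk (tp 𝓜.lef j) ((q : K) ^ j) := Motives.Rk.lef.tp j
  have h5 : 𝓜.Bij M M := hself M h1 ⟨h3⟩ h2
  rw [hj] at h2
  have h6 := h2.nonempty_iso h4 h5
    (Motives.Bij.retract (retRight (T := T) _ j) (retRight (T := T) _ j)
      (H.cyc 0 0 j j (Nat.zero_le _)))
    (Motives.Bij.retract (retLeft h3 𝓜.lef) (retRight (T := T) _ j)
      (H.cyc t.card 0 0 j ht))
    (Motives.Bij.retract (retRight (T := T) _ j) (retLeft h3 𝓜.lef)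
      (H.cyc 0 t.card j 0 (by omega)))
  rw [← h1, ← toSkeleton_tp, toSkeleton_eq_toSkeleton_iff]
  exact h6

theorem Hyp.pair_cl (y : Λ) : ∃ h, 2 * h = dg y + dg (bar y) ∧ val (bar y) * val y = (q : K) ^ h ∧
    toSkeleton (B y) * toSkeleton (B (bar y)) = toSkeleton 𝓜.lef ^ h := by
  obtain ⟨h, h1, h2⟩ := H.pair y
  refine ⟨h, h1, h2, ?_⟩
  have h3 := H.small (t := y ::ₘ bar y ::ₘ 0) (j := h) (by
    have := H.four
    simp only [Multiset.card_cons, Multiset.card_zero]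
    omega) (by
    simp only [Multiset.map_cons, Multiset.map_zero, Multiset.prod_cons, Multiset.prod_zero,
      mul_one]
    rw [mul_comm]
    exact h2) (by
    intro M _ ⟨hr⟩ _
    exact Motives.Bij.retract (retLeft hr 𝓜.lef) (retLeft hr 𝓜.lef) (H.cyc _ _ 0 0 (by
      have := H.four
      simp only [Multiset.card_cons, Multiset.card_zero]
      omega)))
  rw [cl_cons, cl_cons] at h3
  rw [← h3]
  congr 1
  exact (mul_one _).symm

theorem Hyp.isUnit (y : Λ) : IsUnit (toSkeleton (B y)) := by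
  obtain ⟨h, -, -, h3⟩ := H.pair_cl y
  have h4 : IsUnit (toSkeleton 𝓜.lef ^ h) := lef_unit.pow h
  rw [← h3] at h4
  exact isUnit_of_mul_isUnit_left h4

theorem Hyp.isUnit_cl (t : Multiset Λ) : IsUnit (cl B t) := by
  induction t using Multiset.induction with
  | empty => exact isUnit_one
  | cons y t ih =>
    rw [cl_cons]
    exact (H.isUnit y).mul ih

theorem Hyp.self {t : Multiset Λ} {M : C} (h1 : toSkeleton M = cl B t)
    {x : K} (h2 : 𝓜.Rk M x) : 𝓜.Bij M M :=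
  bij_of_isUnit H.one h2 (by rw [h1]; exact H.isUnit_cl t)

theorem Hyp.pairs_cl (Q : Multiset Λ) : ∃ h, 2 * h = (Q.map dg).sum + ((Q.map bar).map dg).sum ∧
    ((Q.map bar).map val).prod * (Q.map val).prod = (q : K) ^ h ∧
    cl B Q * cl B (Q.map bar) = toSkeleton 𝓜.lef ^ h := by
  induction Q using Multiset.induction with
  | empty => exact ⟨0, by simp, by simp, by simp [cl]⟩
  | cons y Q ih =>
    obtain ⟨h, h1, h2, h3⟩ := ih
    obtain ⟨h', h4, h5, h6⟩ := H.pair_cl y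
    refine ⟨h' + h, ?_, ?_, ?_⟩
    · rw [Multiset.map_cons, Multiset.map_cons, Multiset.map_cons, Multiset.sum_cons,
        Multiset.sum_cons]
      omega
    · rw [Multiset.map_cons, Multiset.map_cons, Multiset.map_cons, Multiset.prod_cons,
        Multiset.prod_cons, pow_add, ← h2, ← h5]
      ring
    · rw [Multiset.map_cons, cl_cons, cl_cons, pow_add, ← h3, ← h6]
      exact mul_mul_mul_comm _ _ _ _

theorem Hyp.tate {t : Multiset Λ} {j : ℕ} (h1 : (t.map dg).sum = 2 * j)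
    (h2 : (t.map val).prod = (q : K) ^ j) : cl B t = toSkeleton 𝓜.lef ^ j := by
  obtain ⟨Q, hQ⟩ := H.gen t ⟨j, h1, h2⟩
  have key : ∀ u ∈ AddSubmonoid.closure {u | Tt q val dg u ∧ u.card ≤ N},
      ∃ j, (u.map dg).sum = 2 * j ∧ cl B u = toSkeleton 𝓜.lef ^ j := by
    intro u hu
    induction hu using AddSubmonoid.closure_induction with
    | mem u hu =>
      obtain ⟨⟨j, hj1, hj2⟩, hu⟩ := hu
      exact ⟨j, hj1, H.small hu hj2 fun M hM _ hM' => H.self hM hM'⟩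
    | zero => exact ⟨0, by simp, by simp [cl]⟩
    | add u u' _ _ h h' =>
      obtain ⟨j, hj1, hj2⟩ := h
      obtain ⟨j', hj1', hj2'⟩ := h'
      refine ⟨j + j', ?_, ?_⟩
      · rw [Multiset.map_add, Multiset.sum_add]
        omega
      · rw [cl_add, hj2, hj2', pow_add]
  obtain ⟨J, hJ1, hJ2⟩ := key _ hQ
  obtain ⟨h, h3, -, h4⟩ := H.pairs_cl Q
  rw [Multiset.map_add, Multiset.map_add, Multiset.sum_add, Multiset.sum_add] at hJ1
  have h5 : J = j + h := by omega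
  rw [cl_add, cl_add, mul_assoc, h4, h5, pow_add] at hJ2
  exact (lef_unit.pow h).mul_right_cancel hJ2

/-- the motives which are products of twists of words -/
def Wd (𝓜 : Motives K C q) (B : Λ → C) (M : C) : Prop :=
  ∃ (t : Multiset Λ) (a : ℕ), toSkeleton M = cl B t * toSkeleton 𝓜.lef ^ a

omit H

theorem Wd.unit : Wd 𝓜 B (𝟙_ C) := ⟨0, 0, by rw [pow_zero, mul_one]; rfl⟩

theorem Wd.lef : Wd 𝓜 B 𝓜.lef := ⟨0, 1, by rw [pow_one]; exact (one_mul _).symm⟩

theorem Wd.tensor (M M' : C) (h : Wd 𝓜 B M) (h' : Wd 𝓜 B M') : Wd 𝓜 B (M ⊗ M') := by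
  obtain ⟨t, a, h⟩ := h
  obtain ⟨t', a', h'⟩ := h'
  refine ⟨t + t', a + a', ?_⟩
  rw [Skeleton.toSkeleton_tensorObj, h, h', cl_add, pow_add, mul_mul_mul_comm]

theorem Wd.of {M : C} {y : Λ} (h : toSkeleton M = toSkeleton (B y)) : Wd 𝓜 B M :=
  ⟨{y}, 0, by rw [h, pow_zero, mul_one, cl, Multiset.map_singleton, Multiset.prod_singleton]⟩

theorem Cov.mono {S S' : C → Prop} (h : ∀ M, S M → S' M) {M : C} (hM : Cov S M) : Cov S' M := by
  induction hM with
  | of M hM => exact Cov.of _ (h M hM)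
  | sum A ι D p i hs _ ih => exact Cov.sum A ι D p i hs ih

include H

theorem Hyp.rk_of {M : C} {t : Multiset Λ} {a : ℕ}
    (h : toSkeleton M = cl B t * toSkeleton 𝓜.lef ^ a) :
    𝓜.Rk M ((t.map val).prod * (q : K) ^ a) := by
  obtain ⟨M', h1, h2, -⟩ := exists_word H.rk H.ret t
  have h3 : 𝓜.Rk (M' ⊗ tp 𝓜.lef a) ((t.map val).prod * (q : K) ^ a) :=
    h2.tensor (Motives.Rk.lef.tp a)
  have h4 : Nonempty (M' ⊗ tp 𝓜.lef a ≅ M) := by
    rw [← toSkeleton_eq_toSkeleton_iff, Skeleton.toSkeleton_tensorObj, h1, toSkeleton_tp, h]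
  obtain ⟨e⟩ := h4
  exact h3.iso e

/-- **Morphisms between words.** -/
theorem Hyp.bij (M M' : C) (h : Wd 𝓜 B M) (h' : Wd 𝓜 B M') : 𝓜.Bij M M' := by
  obtain ⟨t, a, h⟩ := h
  obtain ⟨u, c, h'⟩ := h'
  have hM := H.rk_of h
  have hM' := H.rk_of h'
  by_cases hxy : (t.map val).prod * (q : K) ^ a = (u.map val).prod * (q : K) ^ c
  · obtain ⟨s, hs1, hs2, hs3⟩ := H.pairs_cl u
    have h1 : ((t + u.map bar).map val).prod * (q : K) ^ a = (q : K) ^ (c + s) := by
      rw [Multiset.map_add, Multiset.prod_add, pow_add, ← hs2]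
      linear_combination ((u.map bar).map val).prod * hxy
    have h2 := H.wt _ _ _ h1
    have h3 : ((t + u.map bar).map dg).sum = 2 * (c + s - a) := by omega
    have h4 : ((t + u.map bar).map val).prod = (q : K) ^ (c + s - a) := by
      have h5 : (q : K) ^ (c + s) = (q : K) ^ (c + s - a) * (q : K) ^ a := by
        rw [← pow_add]
        congr 1
        omega
      rw [h5] at h1
      exact mul_right_cancel₀ (pow_ne_zero _ H.q_ne) h1
    have h5 := H.tate h3 h4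
    have h6 : cl B t * toSkeleton 𝓜.lef ^ a = cl B u * toSkeleton 𝓜.lef ^ c := by
      refine (H.isUnit_cl (u.map bar)).mul_right_cancel ?_
      calc cl B t * toSkeleton 𝓜.lef ^ a * cl B (u.map bar)
          = cl B (t + u.map bar) * toSkeleton 𝓜.lef ^ a := by
            rw [cl_add, mul_right_comm]
        _ = toSkeleton 𝓜.lef ^ (c + s) := by
            rw [h5, ← pow_add]
            congr 1
            omega
        _ = cl B u * toSkeleton 𝓜.lef ^ c * cl B (u.map bar) := by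
            rw [pow_add, ← hs3, mul_comm, mul_right_comm]
    have h7 : Nonempty (M' ≅ M) := by
      rw [← toSkeleton_eq_toSkeleton_iff, h, h', h6]
    obtain ⟨e⟩ := h7
    refine Motives.Bij.retract (Retract.refl M) (Retract.ofIso e) ?_
    refine bij_of_isUnit H.one hM ?_
    rw [h]
    exact (H.isUnit_cl t).mul (lef_unit.pow a)
  · exact Motives.Rk.bij_of_ne hxy hM hM'

theorem Hyp.cov_tp (i a : ℕ) : Cov (Wd 𝓜 B) (tp T i ⊗ tp 𝓜.lef a) := by
  refine Cov.tensor Wd.tensor (Cov.tp Wd.unit Wd.tensor ?_ i)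
    (Cov.tp Wd.unit Wd.tensor (Cov.of _ Wd.lef) a)
  exact Cov.mono (fun M ⟨y, hy⟩ => Wd.of hy) H.cov

/-- **All powers.** -/
theorem Hyp.main {M M' : C} (h : 𝓜.Summand T M) (h' : 𝓜.Summand T M') : 𝓜.Bij M M' := by
  obtain ⟨i, a, ⟨h⟩⟩ := h
  obtain ⟨i', a', ⟨h'⟩⟩ := h'
  exact Motives.Bij.retract h h' (Cov.bij H.bij (H.cov_tp i a) (H.cov_tp i' a'))

end Pool.Agent.N90.BM
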